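import Pool.Agent.H73.GpqFlip

set_option autoImplicit false

namespace Pool.Agent.Results.MP_6c6968_al.UnboundedRetreat

open Pool.Agent.H73.Gpq

/-- **Negative answer to Q1.** For every integer `m ≥ 2` the Cayley graphs of `G_{m,1}` and of
`G_{1,m}` (the solvable Baumslag-Solitar group `BS(1,m)`) with respect to the walk or switch
generating set `S₁ = {a, a⁻¹, t, t⁻¹}` have unbounded retreat depth. -/
theorem result (m : ℕ+) (hm : 2 ≤ (m : ℕ)) :
    ¬ BoundedRetreatDepth (S1 m 1) ∧ ¬ BoundedRetreatDepth (S1 1 m) :=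
  ⟨unbounded_left hm, unbounded_right hm⟩

end Pool.Agent.Results.MP_6c6968_al.UnboundedRetreat
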